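import Pool.Agent.Helper82.CNT.Dir
import Pool.Agent.Helper19.S12.Win
import Pool.Agent.Helper40.NSK.Gdi

/-! ROW B_CNT (R^4, case B): the entropy of the point over a label of the window `c` in the presence of a sheet
`R = F(t, y)` of depth `la_R c` and of a form of depth `sg` in the direction `z`:
`h (P | t) ≤ (1 - c) + (1 - la_R c) + (1 - sg)`. -/

set_option autoImplicit false

namespace Pool.Agent.Helper82.CNT

open Finset Filter Topology Matrix Pool.Agent.Helper69.RK Pool.Agent.Helper31.EC Pool.Agent.Helper31.EC.Sp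
open Pool.Agent.Helper40.EL Pool.Agent.Helper95.LF Pool.Agent.Helper89.LX Pool.Agent.Helper3.LF
open Pool.Agent.Helper48.NS Pool.Agent.Helper91.GR Pool.Agent.Helper40.NSK Pool.Agent.Helper42.NS
open Pool.Agent.Helper19.S12

noncomputable section

variable {S : Sp} {m D : ℕ} {s : Sys S m} {c : ℝ}

/-- conditional entropies do not depend on the maximal label -/
theorem kap_h_eq {l l' : Lab S} (hl : IsKap s c l) (hl' : IsKap s c l') (X Y : S.L) :
    h (up1 l X) (up1 l Y) = h (up1 l' X) (up1 l' Y) := by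
  have h1 := hl.H_eq hl' (Y ⊔ X)
  have h2 := hl.H_eq hl' Y
  rw [up1_sup, up1_sup, H_chain, H_chain] at h1
  linarith

/-- the joined label keeps the form -/
theorem exists_lab {e : Fin m → ℝ} {σ : ℝ} (hf : HfE s D e c σ) {κ : Lab S} (hκ : IsKap s c κ) :
    ∃ (l : Lab S) (g : ∀ k, (l k).T.Ω → Matrix (Mon (m + 1) D) (Mon (m + 1) D) ℝ), IsKap s c l ∧
      (∀ k ω ω', (l k).T.μ ω ≠ 0 → (l k).T.μ ω' ≠ 0 → (l k).V ω ω' → (l k).T.Z ω ω' → g k ω = g k ω') ∧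
      (∀ᶠ k in UF, ∀ ω, (l k).T.μ ω ≠ 0 → PdM (g k ω)) ∧
      (∀ η : ℝ, 0 < η → Typ (S := l.sp) (fun k (ω : (l k).T.Ω) =>
        sph s D k ((l k).p.π ω) (g k ω) ≤ 2 ^ (η * (S.F k).n))) ∧
      ∀ η : ℝ, 0 < η → Typ (S := l.sp) (fun k (ω : (l k).T.Ω) => 2 ^ (2 * (σ - η) * (S.F k).n) ≤
        e ⬝ᵥ (Jf (S.dl 1 k) (g k ω) (ptf s k ((l k).p.π ω)) *ᵥ e)) := by
  obtain ⟨x, hx, hl⟩ := hf
  have hj := Gau.Ad.jn (gau s D) hx hκ.1
  refine ⟨fun k => ((x k).jn (κ k)).l, fun k => ((x k).jn (κ k)).g, ?_, ?_, ?_, ?_, ?_⟩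
  · exact IsKap_join_right (l := fun k => (x k).l) (l' := κ) (Gau.Ad.dm (gau s D) hx) hκ
  · exact fun k ω ω' a b d d' => (((x k).jn (κ k)).meas ω ω' a b d d').1
  · filter_upwards [hj 1 one_pos] with k hk ω hω
    exact (hk.2.2.1 ω hω).1.pdM
  · intro η hη
    rw [typ_iff]
    rw [Metric.tendsto_nhds]
    intro ε hε
    have h2 : 0 < min η (ε / 2) := lt_min hη (by linarith)
    filter_upwards [hj _ h2] with k hk
    rw [Real.dist_eq, sub_zero, abs_of_nonneg (FSp.pb_nonneg _ _)]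
    refine lt_of_le_of_lt (le_trans (FSp.pb_mono _ ?_) hk.2.2.2.1)
      (lt_of_le_of_lt (min_le_right η (ε / 2)) (by linarith))
    intro ω _ h3 h4
    apply h3
    refine le_trans h4 ?_
    apply Real.rpow_le_rpow_of_exponent_le (by norm_num)
    exact mul_le_mul_of_nonneg_right (min_le_left _ _) (S.F k).pos.le
  · intro η hη
    rw [typ_iff]
    refine (hl η hη).congr fun k => ?_
    exact (pb_push ((x k).l.am (κ k)).p1 (fun ω => ¬ 2 ^ (2 * (σ - η) * (S.F k).n) ≤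
      e ⬝ᵥ (Jf (S.dl 1 k) ((x k).g ω) (ptf s k ((x k).l.p.π ω)) *ᵥ e))).symm

/-- two typical events happen together -/
theorem typ_exists {T : Sp} {E : ∀ k, (T.F k).Ω → Prop} (h : Typ E) : ∀ᶠ k in UF, ∃ ω, (T.F k).μ ω ≠ 0 ∧ E k ω := by
  have h1 := (show Tendsto (fun k => (T.F k).pb (fun ω => ¬ E k ω)) UF (𝓝 0) from h).eventually
    (gt_mem_nhds one_pos)
  filter_upwards [h1] with k hk
  by_contra hno
  push Not at hno
  have h2 : (T.F k).pb (fun _ => True) ≤ (T.F k).pb (fun ω => ¬ E k ω) :=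
    FSp.pb_mono _ fun ω hω _ => hno ω hω
  have h3 := (T.F k).pb_add_compl (fun _ => True)
  have h4 : (T.F k).pb (fun _ => ¬ True) = 0 := by
    unfold FSp.pb mass
    refine Finset.sum_eq_zero fun ω _ => ?_
    rw [res_neg (T.F k).μ (fun _ => ¬ True) ω (not_not.mpr trivial)]
  linarith

/-- the depth of a form in a direction is at most one -/
theorem HfE_le_one {e : Fin m → ℝ} {σ : ℝ} (hf : HfE s D e c σ) : σ ≤ 1 := by
  obtain ⟨κ, hκ⟩ := exists_kap s c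
  obtain ⟨l, g, -, -, hpd, h1, h2⟩ := exists_lab hf hκ
  by_contra hc
  push Not at hc
  obtain ⟨η, hη⟩ : ∃ η : ℝ, η = (σ - 1) / 2 := ⟨_, rfl⟩
  have hη0 : 0 < η := by rw [hη]; linarith
  obtain ⟨C, hC⟩ : ∃ C : ℝ, C = ((m + 1 : ℕ) : ℝ) * nn (m + 1) D * Cm (m + 1) D ^ 2 := ⟨_, rfl⟩
  have hC0 : 0 ≤ C := by
    have := nn_one (m + 1) D
    rw [hC]
    positivity
  have he0 : 0 ≤ e ⬝ᵥ e := self_nonneg' e
  have h3 := typ_exists (typ_and (S := l.sp) (h1 (η / 2) (by linarith)) (h2 (η / 2) (by linarith)))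
  have h4 : ∀ᶠ k in UF, C * (e ⬝ᵥ e) + 1 ≤ 2 ^ ((η / 2) * (S.F k).n) := by
    have h5 : Tendsto (fun k => (2 : ℝ) ^ ((η / 2) * (S.F k).n)) UF atTop :=
      (tendsto_rpow_atTop_of_base_gt_one 2 (by norm_num)).comp (Tendsto.const_mul_atTop (by linarith) S.lim)
    exact h5.eventually (eventually_ge_atTop _)
  obtain ⟨k, ⟨ω, hω, k1, k2⟩, k3, k4⟩ := (h3.and (h4.and hpd)).exists
  have hn := (S.F k).pos
  have hpdk := k4 ω hω
  have e1 := Jf_gam (S.dl 1 k) (g k ω) hpdk (ptf s k ((l k).p.π ω)) e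
  have e2 := gam_le (g k ω) hpdk (S.dl 1 k) (S.dl_pos 1 k) (ptf s k ((l k).p.π ω))
  rw [← hC] at e2
  have e3 : phi (S.dl 1 k) (g k ω) (ptf s k ((l k).p.π ω)) ≤ 2 ^ ((η / 2) * (S.F k).n) := k1
  have e4 : S.dl 1 k ^ 2 = 2 ^ (-2 * (S.F k).n) := by
    unfold Sp.dl
    rw [← Real.rpow_natCast, ← Real.rpow_mul (by norm_num)]
    congr 1
    push_cast
    ring
  have e5 : (2 : ℝ) ^ (-2 * (S.F k).n) * 2 ^ (2 * (σ - η / 2) * (S.F k).n) ≤
      C * 2 ^ ((η / 2) * (S.F k).n) * (e ⬝ᵥ e) := by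
    have p1 : (0 : ℝ) < 2 ^ (-2 * (S.F k).n) := by positivity
    calc (2 : ℝ) ^ (-2 * (S.F k).n) * 2 ^ (2 * (σ - η / 2) * (S.F k).n) ≤
          2 ^ (-2 * (S.F k).n) * (gam (S.dl 1 k) (g k ω) (ptf s k ((l k).p.π ω)) * (e ⬝ᵥ e)) :=
          mul_le_mul_of_nonneg_left (k2.trans e1) p1.le
      _ = (S.dl 1 k ^ 2 * gam (S.dl 1 k) (g k ω) (ptf s k ((l k).p.π ω))) * (e ⬝ᵥ e) := by rw [e4]; ring
      _ ≤ (C * phi (S.dl 1 k) (g k ω) (ptf s k ((l k).p.π ω))) * (e ⬝ᵥ e) :=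
          mul_le_mul_of_nonneg_right e2 he0
      _ ≤ C * 2 ^ ((η / 2) * (S.F k).n) * (e ⬝ᵥ e) :=
          mul_le_mul_of_nonneg_right (mul_le_mul_of_nonneg_left e3 hC0) he0
  rw [← Real.rpow_add (by norm_num)] at e5
  have e6 : (2 : ℝ) ^ (-2 * (S.F k).n + 2 * (σ - η / 2) * (S.F k).n) =
      2 ^ ((η / 2) * (S.F k).n) * (2 ^ ((η / 2) * (S.F k).n) * 2 ^ ((2 * η) * (S.F k).n)) := by
    rw [← Real.rpow_add (by norm_num), ← Real.rpow_add (by norm_num)]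
    congr 1
    rw [hη]
    ring
  rw [e6] at e5
  have p1 : (0 : ℝ) < 2 ^ ((η / 2) * (S.F k).n) := by positivity
  have p2 : (1 : ℝ) ≤ 2 ^ ((2 * η) * (S.F k).n) := Real.one_le_rpow (by norm_num) (by positivity)
  have e7 : (2 : ℝ) ^ ((η / 2) * (S.F k).n) * 2 ^ ((2 * η) * (S.F k).n) ≤ C * (e ⬝ᵥ e) := by
    have e8 : (2 : ℝ) ^ ((η / 2) * (S.F k).n) * (2 ^ ((η / 2) * (S.F k).n) * 2 ^ ((2 * η) * (S.F k).n)) ≤
        2 ^ ((η / 2) * (S.F k).n) * (C * (e ⬝ᵥ e)) := by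
      refine e5.trans (le_of_eq ?_)
      ring
    exact le_of_mul_le_mul_left e8 p1
  nlinarith

/-- THE DIGITS OF THE COORDINATE `z` up to the depth of the form are known -/
theorem dir_kap {z : Fin m} {σ : ℝ} (hf : HfE s D (Pi.single z 1) c σ) {κ : Lab S} (hκ : IsKap s c κ) {W : S.L}
    (hW : ∀ i, i ≠ z.succ → TR.dg (pc s i) 1 ≤ W) : h (up1 κ (TR.dg (pc s z.succ) σ)) (up1 κ W) = 0 := by
  have h1 := HfE_le_one hf
  rcases le_or_gt σ 0 with h0 | h0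
  · have e1 : TR.dg (pc s z.succ) σ = ⊥ := VV.dg_nonpos _ h0
    rw [e1]
    have e2 : up1 κ (⊥ : S.L) = ⊥ := κ.upL_bot 1 one_pos
    rw [e2]
    exact h_zero bot_le
  · obtain ⟨l, g, hl, hm, hpd, hT1, hT2⟩ := exists_lab hf hκ
    rw [kap_h_eq hκ hl]
    apply le_antisymm _ (h_nonneg _ _)
    apply le_of_forall_pos_le_add
    intro ε hε
    rw [zero_add]
    have h3 := dir_gen s g hm z h0.le h1 (show 0 ≤ ε / 2 by linarith) hpd (hT1 (2 * (ε / 2)) (by linarith))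
      (hT2 (ε / 2) (by linarith)) (A := up1 l W) (fun i hi => up1_mono l (hW i hi))
    linarith

/-- new digits of a coordinate -/
theorem tr_h_dg_dg (f : TR S) {r r' : ℝ} (hr : r ≤ r') : h (TR.dg f r') (TR.dg f r) ≤ r' - r := by
  have h1 := (TR.vec fun _ : Fin 1 => f).h_dg_dg hr
  simp only [Nat.cast_one, one_mul] at h1
  exact h1

/-- the cost of a coordinate whose digits up to the level `r` are known -/
theorem cost {l : Lab S} (f : TR S) {r : ℝ} (hr : r ≤ 1) {A : (l.ovr 1 one_pos).L}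
    (hA : h (up1 l (TR.dg f r)) A = 0) : h (up1 l (TR.dg f 1)) A ≤ 1 - r := by
  have h1 := h_triangle (up1 l (TR.dg f 1)) (up1 l (TR.dg f r)) A
  have h2 : h (up1 l (TR.dg f 1)) (up1 l (TR.dg f r) ⊔ A) ≤ h (up1 l (TR.dg f 1)) (up1 l (TR.dg f r)) :=
    h_anti le_sup_left
  have h3 := (h_up1_le l (TR.dg f 1) (TR.dg f r)).trans (tr_h_dg_dg f hr)
  linarith

/-- THE DIGITS OF THE COORDINATE `R` up to the depth of the sheet are known -/
theorem sht_kap {R : Fin m} {J : Finset (Fin (m + 1))} {κ : Lab S} (hκ : IsKap s c κ) {W : S.L}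
    (hW : ∀ i ∈ J, TR.dg (pc s i) 1 ≤ W) : h (up1 κ (TR.dg (pc s R.succ) (la s R J c))) (up1 κ W) = 0 := by
  obtain ⟨l, v, hl, hv⟩ := Sht_of_HH (HH_la (s := s) (i := R) (J := J) c)
  have hk : IsKap s c (l.join κ) := IsKap_join_right hl hκ
  rw [kap_h_eq hκ hk]
  apply h_zero
  have h2 : Sht s R J (la s R J c) (l.join κ) (fun k ω => v k ω.1) := Sht_join_left hv
  apply h2.dg_le le_rfl
  intro j hj
  exact up1_mono _ ((TR.dg_mono _ (la_le_one c)).trans (hW j hj))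

/-- ROW B_CNT -/
theorem b_cnt {s : Sys S 3} {D : ℕ} {c sg : ℝ} {y R z : Fin 3} (hyR : y ≠ R) (hyz : y ≠ z) (hRz : R ≠ z)
    (h1 : c ≤ 1) (hf : HfE s D (Pi.single z 1) c sg) {l : Lab S} (hl : IsKap s c l) :
    h (up1 l (s.P.dg 1)) (up1 l s.T) ≤ (1 - c) + (1 - la s R {0, y.succ} c) + (1 - sg) := by
  obtain ⟨Y, hY⟩ : ∃ Y : Fin 3 → S.L, Y = fun i => TR.dg (pc s i.succ) 1 := ⟨_, rfl⟩
  have hT : TR.dg (pc s 0) 1 = s.T := pc_zero_dg s 1
  have hi : ∀ i : Fin 3, i = y ∨ i = R ∨ i = z := by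
    intro i
    omega
  -- the point
  have hP : s.P.dg 1 ≤ Y y ⊔ (Y R ⊔ Y z) := by
    rw [TR.vv_dg_le_iff]
    intro i
    have h2 : TR.dg (TR.cor s.P i) 1 = Y i := by
      rw [hY]
      rfl
    rw [h2]
    rcases hi i with h | h | h
    · rw [h]; exact le_sup_left
    · rw [h]; exact le_sup_left.trans le_sup_right
    · rw [h]; exact le_sup_right.trans le_sup_right
  have h2 : h (up1 l (s.P.dg 1)) (up1 l s.T) ≤ h (up1 l (Y y ⊔ (Y R ⊔ Y z))) (up1 l s.T) := h_mono (up1_mono l hP)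
  rw [up1_sup, up1_sup, h_chain, h_chain] at h2
  -- y
  have hy : h (up1 l (Y y)) (up1 l s.T) ≤ 1 - c := by
    rw [hY]
    apply cost _ h1
    have h3 : up1 l (TR.dg (pc s y.succ) c) ≤ ⊥ := by
      rw [← hl.P_bot h1]
      exact up1_mono l (TR.cor_dg_le s.P y c)
    exact h_zero (h3.trans bot_le)
  -- R
  have hR : h (up1 l (Y R)) (up1 l (Y y) ⊔ up1 l s.T) ≤ 1 - la s R {0, y.succ} c := by
    rw [← up1_sup, hY]
    apply cost _ (la_le_one c)
    apply sht_kap hl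
    intro i hi
    rw [Finset.mem_insert, Finset.mem_singleton] at hi
    rcases hi with h | h
    · rw [h, hT]; exact le_sup_right
    · rw [h]; exact le_sup_left
  -- z
  have hz : h (up1 l (Y z)) (up1 l (Y R) ⊔ (up1 l (Y y) ⊔ up1 l s.T)) ≤ 1 - sg := by
    rw [← up1_sup, ← up1_sup]
    have h3 : h (up1 l (Y z)) (up1 l (Y R ⊔ (Y y ⊔ s.T))) ≤ 1 - sg := by
      rw [hY]
      apply cost _ (HfE_le_one hf)
      apply dir_kap hf hl
      intro i
      refine Fin.cases (fun _ => ?_) (fun j hj => ?_) i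
      · rw [hT]; exact le_sup_right.trans le_sup_right
      · rcases hi j with h | h | h
        · rw [h]; exact le_sup_left.trans le_sup_right
        · rw [h]; exact le_sup_left
        · exact absurd (congrArg Fin.succ h) hj
    exact h3
  linarith

end

end Pool.Agent.Helper82.CNT
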