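import Pool.Agent.Helper82.CNT.Slc
import Pool.Agent.Helper91.GR.Nl

/-! COUNT in the direction of a coordinate: given the label with the form and all digits of the other coordinates of
the point, the digits of the coordinate `z` of the point are known up to the depth of the form in the direction `z`. -/

set_option autoImplicit false

namespace Pool.Agent.Helper82.CNT

open Finset Filter Topology Matrix Pool.Agent.Helper69.RK Pool.Agent.Helper31.EC Pool.Agent.Helper31.EC.Sp
open Pool.Agent.Helper40.EL Pool.Agent.Helper95.LF Pool.Agent.Helper89.LX Pool.Agent.Helper3.LF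
open Pool.Agent.Helper48.NS Pool.Agent.Helper91.GR

noncomputable section

variable {S : Sp} {m D : ℕ}

/-- the corner of the cell of the point -/
def crn (s : Sys S m) (k : ℕ) (ω : (S.F k).Ω) : Fin (m + 1) → ℝ := fun i => S.dl 1 k * ⌊ptf s k ω i / S.dl 1 k⌋

theorem crn_near (s : Sys S m) (k : ℕ) (ω : (S.F k).Ω) (i : Fin (m + 1)) :
    |ptf s k ω i - crn s k ω i| ≤ S.dl 1 k := by
  have d0 := S.dl_pos 1 k
  have f1 := Int.floor_le (ptf s k ω i / S.dl 1 k)
  have f2 := Int.lt_floor_add_one (ptf s k ω i / S.dl 1 k)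
  rw [le_div_iff₀ d0] at f1
  rw [div_lt_iff₀ d0] at f2
  unfold crn
  rw [abs_le]
  constructor <;> nlinarith

section
variable (s : Sys S m) (l : Lab S) (g : ∀ k, (l k).T.Ω → Matrix (Mon (m + 1) D) (Mon (m + 1) D) ℝ) (z : Fin m)

/-- the node -/
def nj (k : ℕ) (ω : (l k).T.Ω) : Fin (m + 1) → Fin (D + 1) :=
  (exists_row_node z (g k ω) (S.dl 1 k) (crn s k ((l k).p.π ω))).choose_spec.choose

/-- the node as a point -/
def ny (k : ℕ) (ω : (l k).T.Ω) : Fin (m + 1) → ℝ :=
  nodp D (crn s k ((l k).p.π ω)) (S.dl 1 k) (nj s l g z k ω)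

theorem ny_spec (k : ℕ) (ω : (l k).T.Ω) : ∃ r : Mon (m + 1) D, PdM (g k ω) →
    (Pi.single z (1 : ℝ) : Fin m → ℝ) ⬝ᵥ (Jf (S.dl 1 k) (g k ω) (crn s k ((l k).p.π ω))).mulVec (Pi.single z 1) ≤
      (Fintype.card (Mon (m + 1) D) * nn (m + 1) D) *
        (MvPolynomial.eval (ny s l g z k ω) (MvPolynomial.pderiv z.succ (pol (rws (g k ω) r)))) ^ 2 :=
  ⟨_, (exists_row_node z (g k ω) (S.dl 1 k) (crn s k ((l k).p.π ω))).choose_spec.choose_spec⟩

theorem ny_near (k : ℕ) (ω : (l k).T.Ω) (i : Fin (m + 1)) :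
    |ny s l g z k ω i - crn s k ((l k).p.π ω) i| ≤ S.dl 1 k := by
  unfold ny nodp
  have e1 : crn s k ((l k).p.π ω) i + S.dl 1 k * nod D (nj s l g z k ω i) - crn s k ((l k).p.π ω) i =
      S.dl 1 k * nod D (nj s l g z k ω i) := by ring
  rw [e1, abs_mul, abs_of_pos (S.dl_pos 1 k), abs_of_nonneg (nod_nonneg D _)]
  have := nod_le D (nj s l g z k ω i) (Nat.le_of_lt_succ (nj s l g z k ω i).2)
  have := S.dl_pos 1 k
  nlinarith

theorem ny_near2 (k : ℕ) (ω : (l k).T.Ω) (i : Fin (m + 1)) :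
    |ny s l g z k ω i - ptf s k ((l k).p.π ω) i| ≤ 2 * S.dl 1 k := by
  have h1 := ny_near s l g z k ω i
  have h2 := crn_near s k ((l k).p.π ω) i
  rw [abs_le] at h1 h2 ⊢
  constructor <;> linarith [h1.1, h1.2, h2.1, h2.2]

end

/-- the index of the family of polynomials -/
abbrev Ix (m D : ℕ) : Type := Mon (m + 1) D × (Fin (m + 1) → Fin (D + 1))

theorem ovr_dl (l : Lab S) (r : ℝ) (k : ℕ) : (l.ovr 1 one_pos).dl r k = S.dl r k := by
  have h3 : (l.ovr 1 one_pos).dl r k = l.sp.dl (1 * r) k := chg_dl l.V 1 one_pos r k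
  rw [h3, one_mul, sp_dl]

theorem ovr_n (l : Lab S) (k : ℕ) : ((l.ovr 1 one_pos).F k).n = (S.F k).n := by
  have e1 : ((l.ovr 1 one_pos).F k).n = 1 * (l k).T.n := rfl
  rw [e1, one_mul, (l k).hn]

/-- the squares of exponentials -/
theorem pow_sq (a n : ℝ) : ((2 : ℝ) ^ (a * n)) ^ 2 = 2 ^ (2 * a * n) := by
  rw [← Real.rpow_natCast, ← Real.rpow_mul (by norm_num)]
  congr 1
  push_cast
  ring

/-- COUNT IN THE DIRECTION OF A COORDINATE over a label with a form -/
theorem dir_gen (s : Sys S m) {l : Lab S} (g : ∀ k, (l k).T.Ω → Matrix (Mon (m + 1) D) (Mon (m + 1) D) ℝ)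
    (hm : ∀ k ω ω', (l k).T.μ ω ≠ 0 → (l k).T.μ ω' ≠ 0 → (l k).V ω ω' → (l k).T.Z ω ω' → g k ω = g k ω')
    (z : Fin m) {σ e : ℝ} (h0 : 0 ≤ σ) (h1 : σ ≤ 1) (he : 0 ≤ e)
    (hpd : ∀ᶠ k in UF, ∀ ω, (l k).T.μ ω ≠ 0 → PdM (g k ω))
    (hT1 : Typ (S := l.sp) (fun k (ω : (l k).T.Ω) => sph s D k ((l k).p.π ω) (g k ω) ≤ 2 ^ (2 * e * (S.F k).n)))
    (hT2 : Typ (S := l.sp) (fun k (ω : (l k).T.Ω) => 2 ^ (2 * (σ - e) * (S.F k).n) ≤
      (Pi.single z (1 : ℝ) : Fin m → ℝ) ⬝ᵥ (Jf (S.dl 1 k) (g k ω) (ptf s k ((l k).p.π ω)) *ᵥ Pi.single z 1)))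
    {A : (l.ovr 1 one_pos).L} (hA : ∀ i, i ≠ z.succ → up1 l (TR.dg (pc s i) 1) ≤ A) :
    h (up1 l (TR.dg (pc s z.succ) σ)) A ≤ 2 * e := by
  classical
  obtain ⟨Kp, hKp, hpb⟩ := ptf_bd s
  have hTsub : ∀ {L : ℕ → ℝ}, S.Sub L → (l.ovr 1 one_pos).Sub L :=
    fun hL => chg_sub l.V 1 one_pos ((sp_Sub l).mpr hL)
  -- the constants
  obtain ⟨C1, hC1⟩ : ∃ C1 : ℝ, C1 = nn (m + 1) D * (Cu D * Cm (m + 1) D * 2 ^ D) ^ 2 := ⟨_, rfl⟩
  obtain ⟨C2, hC2⟩ : ∃ C2 : ℝ, C2 = Fintype.card (Mon (m + 1) D) * nn (m + 1) D := ⟨_, rfl⟩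
  have hnn := nn_one (m + 1) D
  have hC10 : 0 ≤ C1 := by rw [hC1]; positivity
  have hC20 : 0 ≤ C2 := by rw [hC2]; positivity
  -- the digits of the other coordinates
  set J : Finset (Fin (m + 1)) := Finset.univ.erase z.succ with hJ
  set w : (l.ovr 1 one_pos).VV (m + 1) := msk J (Pool.Agent.Helper52.SL.cv l (pv s)) with hw
  have hwA : w.dg 1 ≤ A := by
    rw [hw]
    apply msk_dg_le
    intro j hj
    have h2 := hA j (Finset.ne_of_mem_erase hj)
    rw [← ct_dg] at h2
    exact h2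
  -- the node
  set y : (l.ovr 1 one_pos).VV 1 :=
    { v := fun k ω _ => ny s l g z k ω z.succ
      bd := by
        refine ⟨fun k => Kp k + 2, hTsub (hKp.add (S.Sub_const (by norm_num))), ?_⟩
        filter_upwards [hpb] with k hk ω hω i
        have h2 := ny_near2 s l g z k ω z.succ
        have h3 := hk _ ((l k).p.supp ω hω) z.succ
        have h4 := dl_one_le S k
        have h5 := abs_sub_abs_le_abs_sub (ny s l g z k ω z.succ) (ptf s k ((l k).p.π ω) z.succ)
        linarith } with hy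
  have hmain : h (y.dg σ) (cl (w.bdd 1).toInf) ≤ 2 * e := by
    have hl := Pool.Agent.Helper80.LF.h_leaf (S := l.ovr 1 one_pos) (m := 0) (J := Fintype.card (Ix m D)) (D := D)
      y σ 0 e h0 he (w.bdd 1).toInf
      (fun k ω j => slc z.succ (nodp D (crn s k ((l k).p.π ω)) (S.dl 1 k) ((Fintype.equivFin (Ix m D)).symm j).2)
        (pol (rws (g k ω) ((Fintype.equivFin (Ix m D)).symm j).1)))
      (fun _ _ _ => 0) ?_ (fun k ω j => slc_deg _ _ _ (pol_deg _))
      (fun k ω => sph s D k ((l k).p.π ω) (g k ω) ≤ 2 ^ (2 * e * (S.F k).n) ∧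
        2 ^ (2 * (σ - e) * (S.F k).n) ≤ (Pi.single z (1 : ℝ) : Fin m → ℝ) ⬝ᵥ
          (Jf (S.dl 1 k) (g k ω) (ptf s k ((l k).p.π ω)) *ᵥ Pi.single z 1)) ?_
      (fun k => (Kp k + 2) + ((C1 + 1) + (C1 * C2 + 1))) ?_ ?_
    · refine hl.trans (le_of_eq ?_)
      push_cast
      ring
    · refine Eventually.of_forall fun k ω ω' a a' b d => ⟨?_, rfl⟩
      have g3 : (l k).V ω' ω := d.1
      have g2 : (l k).T.Z ω' ω := d.2
      have b' : w.cellv 1 k ω' = w.cellv 1 k ω := b
      have hg : g k ω' = g k ω := hm k ω' ω a' a g3 g2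
      funext j
      rw [hg]
      have hc : ∀ i, i ≠ z.succ → crn s k ((l k).p.π ω') i = crn s k ((l k).p.π ω) i := by
        intro i hi
        have hi' : i ∈ J := Finset.mem_erase.mpr ⟨hi, Finset.mem_univ i⟩
        have e1 : ∀ ω'' : (l k).T.Ω, w.cellv 1 k ω'' i = ⌊ptf s k ((l k).p.π ω'') i / S.dl 1 k⌋ := by
          intro ω''
          have e2 : w.v k ω'' i = ptf s k ((l k).p.π ω'') i := if_pos hi'
          have e3 : w.cellv 1 k ω'' i = ⌊w.v k ω'' i / (l.ovr 1 one_pos).dl 1 k⌋ := rfl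
          rw [e3, e2, ovr_dl]
        have e4 := congrFun b' i
        rw [e1, e1] at e4
        unfold crn
        rw [e4]
      unfold slc
      congr 1
      congr 1
      funext i
      by_cases hi : i = z.succ
      · rw [if_pos hi, if_pos hi]
      · rw [if_neg hi, if_neg hi]
        unfold nodp
        rw [hc i hi]
    · exact typ_chg l.V one_pos (typ_and (S := l.sp) hT1 hT2)
    · exact hTsub ((hKp.add (S.Sub_const (by norm_num))).add ((S.Sub_const (by positivity)).add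
        (S.Sub_const (by positivity))))
    · filter_upwards [hpd, hpb, hKp.1] with k b1 b2 b3 ω hω g12
      obtain ⟨g1, g2⟩ := g12
      have hd0 := S.dl_pos 1 k
      have hd1 := dl_one_le S k
      refine ⟨fun i => ?_, ?_⟩
      · rw [ovr_dl]
        have h2 := ny_near2 s l g z k ω z.succ
        have h3 := b2 _ ((l k).p.supp ω hω) z.succ
        have h5 := abs_sub_abs_le_abs_sub (ny s l g z k ω z.succ) (ptf s k ((l k).p.π ω) z.succ)
        have h6 : S.dl 0 k = 1 := by
          unfold Sp.dl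
          rw [zero_mul, neg_zero, Real.rpow_zero]
        have h7 : 0 ≤ C1 * C2 := mul_nonneg hC10 hC20
        rw [h6, mul_one]
        show |ny s l g z k ω z.succ - 0| ≤ _
        rw [sub_zero]
        linarith
      · obtain ⟨r, hr⟩ := ny_spec s l g z k ω
        have hpdk := b1 ω hω
        have hr1 := hr hpdk
        have hcr : ∀ i, |crn s k ((l k).p.π ω) i - ptf s k ((l k).p.π ω) i| + S.dl 1 k ≤ 2 * S.dl 1 k := by
          intro i
          rw [abs_sub_comm]
          have := crn_near s k ((l k).p.π ω) i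
          linarith
        have hcr' : ∀ i, |ptf s k ((l k).p.π ω) i - crn s k ((l k).p.π ω) i| + S.dl 1 k ≤ 2 * S.dl 1 k := by
          intro i
          have := crn_near s k ((l k).p.π ω) i
          linarith
        have p1 : phi (S.dl 1 k) (g k ω) (crn s k ((l k).p.π ω)) ≤ C1 * sph s D k ((l k).p.π ω) (g k ω) := by
          rw [hC1]
          exact phi_comp (g k ω) hpdk (S.dl 1 k) (S.dl 1 k) 2 hd0 hd0.le (by norm_num) _ _ hcr
        have p2 : (Pi.single z (1 : ℝ) : Fin m → ℝ) ⬝ᵥ (Jf (S.dl 1 k) (g k ω) (ptf s k ((l k).p.π ω)) *ᵥ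
            Pi.single z 1) ≤ C1 * ((Pi.single z (1 : ℝ) : Fin m → ℝ) ⬝ᵥ
              (Jf (S.dl 1 k) (g k ω) (crn s k ((l k).p.π ω)) *ᵥ Pi.single z 1)) := by
          rw [hC1]
          exact Jf_comp (g k ω) hpdk (S.dl 1 k) (S.dl 1 k) 2 hd0 hd0.le (by norm_num) _ _ hcr' _
        refine ⟨Fintype.equivFin (Ix m D) (r, nj s l g z k ω), 0, ?_, ?_⟩
        · rw [Equiv.symm_apply_apply, ovr_n, slc_eval]
          have e1 : Function.update (nodp D (crn s k ((l k).p.π ω)) (S.dl 1 k) (nj s l g z k ω)) z.succ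
              (y.v k ω 0) = ny s l g z k ω := Function.update_eq_self z.succ (ny s l g z k ω)
          show |MvPolynomial.eval (Function.update (nodp D (crn s k ((l k).p.π ω)) (S.dl 1 k) (nj s l g z k ω))
            z.succ (y.v k ω 0)) (pol (rws (g k ω) r))| ≤ _
          rw [e1]
          have h2 := node_le (D := D) (pol (rws (g k ω) r)) (S.dl 1 k) (crn s k ((l k).p.π ω)) (nj s l g z k ω)
          have h3 := rws_ph_le hpdk (S.dl 1 k) (crn s k ((l k).p.π ω)) r
          have h4 : Real.sqrt (ph D (pol (rws (g k ω) r)) (S.dl 1 k) (crn s k ((l k).p.π ω))) ≤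
              (C1 + 1) * 2 ^ (e * (S.F k).n) := by
            rw [Real.sqrt_le_left (by positivity), mul_pow, pow_sq]
            refine h3.trans (p1.trans ?_)
            refine (mul_le_mul_of_nonneg_left g1 hC10).trans ?_
            apply mul_le_mul_of_nonneg_right _ (by positivity)
            nlinarith
          refine (h2.trans h4).trans ?_
          apply mul_le_mul_of_nonneg_right _ (by positivity)
          have h7 : 0 ≤ C1 * C2 := mul_nonneg hC10 hC20
          linarith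
        · rw [Equiv.symm_apply_apply, ovr_n, slc_pderiv, slc_eval]
          have e1 : Function.update (nodp D (crn s k ((l k).p.π ω)) (S.dl 1 k) (nj s l g z k ω)) z.succ
              (y.v k ω 0) = ny s l g z k ω := Function.update_eq_self z.succ (ny s l g z k ω)
          show _ ≤ _ * |MvPolynomial.eval (Function.update (nodp D (crn s k ((l k).p.π ω)) (S.dl 1 k)
            (nj s l g z k ω)) z.succ (y.v k ω 0)) (MvPolynomial.pderiv z.succ (pol (rws (g k ω) r)))|
          rw [e1]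
          obtain ⟨d, hd⟩ : ∃ d : ℝ, d = MvPolynomial.eval (ny s l g z k ω)
              (MvPolynomial.pderiv z.succ (pol (rws (g k ω) r))) := ⟨_, rfl⟩
          rw [← hd] at hr1 ⊢
          have h7 : 0 ≤ C1 * C2 := mul_nonneg hC10 hC20
          have h2 : ((2 : ℝ) ^ ((σ - e) * (S.F k).n)) ^ 2 ≤ C1 * C2 * d ^ 2 := by
            rw [pow_sq]
            refine g2.trans (p2.trans ?_)
            rw [mul_assoc]
            apply mul_le_mul_of_nonneg_left _ hC10
            rw [hC2]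
            exact hr1
          have h3 : (2 : ℝ) ^ ((σ - e) * (S.F k).n) ≤ (C1 * C2 + 1) * |d| := by
            apply le_of_sq_le_sq _ (by positivity)
            rw [mul_pow, sq_abs]
            refine h2.trans ?_
            apply mul_le_mul_of_nonneg_right _ (sq_nonneg _)
            nlinarith
          refine h3.trans ?_
          apply mul_le_mul_of_nonneg_right _ (abs_nonneg _)
          linarith
  -- the digits of the coordinate
  have hP : up1 l (TR.dg (pc s z.succ) σ) ≤ y.dg σ := by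
    rw [← ct_dg]
    refine dg_pair_le (S := l.ovr 1 one_pos) (ct l (pc s z.succ)) y σ (fun _ _ => True) Typ_true (fun _ => 5)
      (Sub_const _ (by norm_num)) ?_
    refine Eventually.of_forall fun k ω ω' _ _ _ _ _ q => ?_
    have h2 := q 0
    rw [ovr_dl] at h2 ⊢
    have h3 := ny_near2 s l g z k ω z.succ
    have h4 := ny_near2 s l g z k ω' z.succ
    have d1 : S.dl 1 k ≤ S.dl σ k := S.dl_anti h1 k
    show |ptf s k ((l k).p.π ω) z.succ - ptf s k ((l k).p.π ω') z.succ| ≤ _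
    have h5 : |ny s l g z k ω z.succ - ny s l g z k ω' z.succ| ≤ S.dl σ k := h2
    rw [abs_le] at h3 h4 h5 ⊢
    constructor <;> linarith [h3.1, h3.2, h4.1, h4.2, h5.1, h5.2]
  have h2 : h (up1 l (TR.dg (pc s z.succ) σ)) A ≤ h (y.dg σ) (w.dg 1) := by
    exact (h_mono hP).trans (h_anti hwA)
  refine h2.trans ?_
  unfold VV.dg at hmain ⊢
  rw [io_eq (w.bdd 1)]
  exact hmain

end

end Pool.Agent.Helper82.CNT
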