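import Pool.Agent.Helper42.NS.PlC
import Pool.Agent.Helper80.LF.Leaf
import Pool.Agent.Helper48.NS.Gf
import Pool.Agent.Helper59.EN.Cov

/-! Restriction of a polynomial to a coordinate line; the node at which the derivative in the direction of a
coordinate is largest. -/

set_option autoImplicit false

namespace Pool.Agent.Helper82.CNT

open MvPolynomial Pool.Agent.Helper95.LF Pool.Agent.Helper3.LF Pool.Agent.Helper48.NS

noncomputable section

variable {N D m : ℕ}

/-- restriction of `q` to the line through `w` in the direction of the coordinate `z` -/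
def slc (z : Fin N) (w : Fin N → ℝ) (q : MvPolynomial (Fin N) ℝ) : MvPolynomial (Fin 1) ℝ :=
  bind₁ (fun i => if i = z then X 0 else C (w i)) q

theorem slc_deg (z : Fin N) (w : Fin N → ℝ) (q : MvPolynomial (Fin N) ℝ) (hq : q.totalDegree ≤ D) :
    (slc z w q).totalDegree ≤ D := by
  refine (Pool.Agent.Helper59.EN.tdeg_bind _ (fun i => ?_) q).trans hq
  by_cases h : i = z
  · rw [if_pos h, totalDegree_X]
  · rw [if_neg h, totalDegree_C]
    exact Nat.zero_le 1

theorem slc_eval (z : Fin N) (w : Fin N → ℝ) (q : MvPolynomial (Fin N) ℝ) (t : Fin 1 → ℝ) :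
    eval t (slc z w q) = eval (Function.update w z (t 0)) q := by
  unfold slc
  have h1 := eval₂Hom_bind₁ (RingHom.id ℝ) t (fun i : Fin N => if i = z then (X 0 : MvPolynomial (Fin 1) ℝ)
    else C (w i)) q
  have h2 : (fun i : Fin N => eval₂Hom (RingHom.id ℝ) t (if i = z then (X 0 : MvPolynomial (Fin 1) ℝ)
      else C (w i))) = Function.update w z (t 0) := by
    funext i
    by_cases h : i = z
    · rw [if_pos h, h, Function.update_self]
      simp
    · rw [if_neg h, Function.update_of_ne h]
      simp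
  rw [h2] at h1
  exact h1

theorem slc_pderiv (z : Fin N) (w : Fin N → ℝ) (q : MvPolynomial (Fin N) ℝ) :
    pderiv 0 (slc z w q) = slc z w (pderiv z q) := by
  unfold slc
  induction q using MvPolynomial.induction_on with
  | C a =>
    rw [bind₁_C_right, pderiv_C, pderiv_C, map_zero]
  | add p q hp hq =>
    rw [map_add, map_add, map_add, map_add, hp, hq]
  | mul_X p i hp =>
    rw [map_mul, Derivation.leibniz, Derivation.leibniz, smul_eq_mul, smul_eq_mul, smul_eq_mul, smul_eq_mul, hp,
      map_add, map_mul, map_mul, bind₁_X_right, pderiv_X]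
    by_cases h : i = z
    · rw [h, if_pos rfl, pderiv_X_self, Pi.single_eq_same, map_one]
    · rw [if_neg h, pderiv_C, Pi.single_eq_of_ne h, map_zero]

/-- the rows of a form -/
theorem rws_eq {A : Matrix (Mon N D) (Mon N D) ℝ} (h : PdM A) : A = (rws A).transpose * rws A := by
  have h1 : rws A = (exists_rows A h).choose := by
    unfold rws
    rw [dif_pos h]
  rw [h1]
  exact (exists_rows A h).choose_spec.1

theorem dir_single (z : Fin m) (q : MvPolynomial (Fin (m + 1)) ℝ) :
    dir (Pi.single z (1 : ℝ)) q = pderiv z.succ q := by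
  classical
  unfold dir
  rw [Finset.sum_eq_single z]
  · rw [Pi.single_eq_same, C_1, one_mul]
  · intro b _ hb
    rw [Pi.single_eq_of_ne hb, C_0, zero_mul]
  · intro h
    exact absurd (Finset.mem_univ z) h

/-- the row and the node with the largest derivative in the direction of the coordinate -/
theorem exists_row_node (z : Fin m) (A : Matrix (Mon (m + 1) D) (Mon (m + 1) D) ℝ) (r : ℝ) (p : Fin (m + 1) → ℝ) :
    ∃ (k : Mon (m + 1) D) (j : Fin (m + 1) → Fin (D + 1)), PdM A →
      (Pi.single z (1 : ℝ) : Fin m → ℝ) ⬝ᵥ (Jf r A p).mulVec (Pi.single z 1) ≤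
        (Fintype.card (Mon (m + 1) D) * nn (m + 1) D) * (eval (nodp D p r j) (pderiv z.succ (pol (rws A k)))) ^ 2 := by
  classical
  obtain ⟨⟨k, j⟩, -, hk⟩ := Finset.exists_max_image
    (Finset.univ : Finset (Mon (m + 1) D × (Fin (m + 1) → Fin (D + 1))))
    (fun y => (eval (nodp D p r y.2) (pderiv z.succ (pol (rws A y.1)))) ^ 2) Finset.univ_nonempty
  refine ⟨k, j, fun h => ?_⟩
  have h1 : (Pi.single z (1 : ℝ) : Fin m → ℝ) ⬝ᵥ (Jf r A p).mulVec (Pi.single z 1) =
      ∑ k, ph D (dir (Pi.single z (1 : ℝ)) (pol (rws A k))) r p := by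
    rw [← Jf_rows, ← rws_eq h]
  rw [h1]
  have h2 : ∀ k' : Mon (m + 1) D, ph D (dir (Pi.single z (1 : ℝ)) (pol (rws A k'))) r p ≤
      nn (m + 1) D * (eval (nodp D p r j) (pderiv z.succ (pol (rws A k)))) ^ 2 := by
    intro k'
    rw [dir_single]
    unfold ph
    refine (Finset.sum_le_card_nsmul _ _ _ fun j' _ => hk (k', j') (Finset.mem_univ _)).trans (le_of_eq ?_)
    rw [nsmul_eq_mul, card_nodes]
  refine (Finset.sum_le_card_nsmul _ _ _ fun k' _ => h2 k').trans (le_of_eq ?_)
  rw [nsmul_eq_mul, Finset.card_univ, mul_assoc]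

end

end Pool.Agent.Helper82.CNT
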